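import Pool.Agent.Helper91.Strip.Two

set_option autoImplicit false
set_option linter.unusedSectionVars false
set_option linter.unusedVariables false

/-!
# Existence of another element of the strip `|x| < b`, `J < I`, `D < I + J`
-/

namespace Helper1.ST

open Helper11.N1 Helper55.KE Helper25.KG Helper25.KW Helper48.KY Helper11.CT Helper91.Strip

section

variable {p a b c J ds l q : ℤ} {D dl : ℝ} {Cl : ℤ → ℤ → ℤ → ℤ → ℝ → Prop}

/-- translation by multiples of `p` -/
theorem trX (W : Base p a b c J ds l q D dl Cl) {N X R : ℤ} {I : ℝ} (h : Cl N 0 X R I) (t : ℤ) :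
    Cl N 0 (X + t * p) R I := by
  have key : ∀ n : ℕ, Cl (0 : ℤ) 0 (n * p) 0 0 := by
    intro n
    have := mul W W.cX n
    simpa using this
  rcases le_total 0 t with ht | ht
  · obtain ⟨n, rfl⟩ := Int.eq_ofNat_of_zero_le ht
    have := W.add h (key n)
    simpa using this
  · obtain ⟨n, hn⟩ := Int.eq_ofNat_of_zero_le (neg_nonneg.2 ht)
    have h1 := dif W h (key n)
    have e : X + t * p = X - n * p := by
      have : t = -n := by linarith
      rw [this]; ring
    rw [e]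
    simpa using h1

/-- weighted pigeonhole -/
theorem pig {p l M : ℕ} (hp : 2 < p) (hM : l < M) (h : p < M + l) (ξ : ℝ) :
    ∃ (d : ℕ) (t : ℤ), 0 < d ∧ d < M ∧ -2 < d * ξ - t * p ∧ d * ξ - t * p < 2 ∧
      (d = l → -1 < d * ξ - t * p) := by
  classical
  have hp0 : (p : ℤ) ≠ 0 := by omega
  let S : Finset (ℕ × ℕ) := (Finset.range M ×ˢ {0}) ∪ (Finset.range l ×ˢ {1})
  have hS : S.card = M + l := by
    rw [Finset.card_union_of_disjoint]
    · simp
    · rw [Finset.disjoint_left]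
      rintro ⟨n, e⟩ h1 h2
      simp only [Finset.mem_product, Finset.mem_singleton] at h1 h2
      omega
  let f : ℕ × ℕ → ℤ := fun x => (⌈(x.1 : ℝ) * ξ⌉ + x.2) % p
  have hf : Set.MapsTo f S (Finset.Ico (0 : ℤ) p) := by
    intro x _
    simp only [Finset.coe_Ico, Set.mem_Ico, f]
    exact ⟨Int.emod_nonneg _ hp0, Int.emod_lt_of_pos _ (by omega)⟩
  obtain ⟨x, hx, y, hy, hne, hxy⟩ := Finset.exists_ne_map_eq_of_card_lt_of_maps_to
    (by rw [hS]; simpa using h) hf
  have main : ∀ x y : ℕ × ℕ, x ∈ S → y ∈ S → y.1 < x.1 → f x = f y →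
      ∃ (d : ℕ) (t : ℤ), 0 < d ∧ d < M ∧ -2 < d * ξ - t * p ∧ d * ξ - t * p < 2 ∧
      (d = l → -1 < d * ξ - t * p) := by
    rintro ⟨n, e⟩ ⟨n', e'⟩ hx hy hlt hxy
    simp only [S, Finset.mem_union, Finset.mem_product, Finset.mem_singleton,
      Finset.mem_range] at hx hy
    simp only at hlt
    simp only [f] at hxy
    obtain ⟨t, ht⟩ := Int.dvd_of_emod_eq_zero (Int.emod_eq_emod_iff_emod_sub_eq_zero.1 hxy)
    have h1 := Int.ceil_lt_add_one ((n : ℝ) * ξ)
    have h2 := Int.le_ceil ((n : ℝ) * ξ)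
    have h3 := Int.ceil_lt_add_one ((n' : ℝ) * ξ)
    have h4 := Int.le_ceil ((n' : ℝ) * ξ)
    have h5 : ((⌈(n : ℝ) * ξ⌉ : ℤ) : ℝ) + e - (⌈(n' : ℝ) * ξ⌉ + e') = p * t := by
      exact_mod_cast ht
    have hd : ((n - n' : ℕ) : ℝ) = n - n' := by
      rw [Nat.cast_sub hlt.le]
    have e0 : (0 : ℝ) ≤ e := Nat.cast_nonneg _
    have e0' : (0 : ℝ) ≤ e' := Nat.cast_nonneg _
    have e1 : (e : ℝ) ≤ 1 := by exact_mod_cast (show e ≤ 1 by omega)
    have e1' : (e' : ℝ) ≤ 1 := by exact_mod_cast (show e' ≤ 1 by omega)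
    refine ⟨n - n', t, by omega, by omega, ?_, ?_, ?_⟩
    · rw [hd]; nlinarith
    · rw [hd]; nlinarith
    · intro hl
      have he : e = 0 := by omega
      subst he
      push_cast at h5
      rw [hd]; nlinarith
  rcases lt_trichotomy x.1 y.1 with h1 | h1 | h1
  · exact main y x hy hx h1 hxy.symm
  · exfalso
    apply hne
    obtain ⟨n, e⟩ := x
    obtain ⟨n', e'⟩ := y
    simp only at h1
    subst h1
    simp only [S, Finset.mem_union, Finset.mem_product, Finset.mem_singleton,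
      Finset.mem_range] at hx hy
    simp only [f] at hxy
    have h2 := Int.emod_eq_emod_iff_emod_sub_eq_zero.1 hxy |> Int.dvd_of_emod_eq_zero
    obtain ⟨t, ht⟩ := h2
    have : t = 0 := by
      have he : e ≤ 1 := by omega
      have he' : e' ≤ 1 := by omega
      have : (p : ℤ) * t < p := by omega
      have : -(p : ℤ) < p * t := by omega
      by_contra hc
      rcases lt_or_gt_of_ne hc with hc | hc
      · nlinarith
      · nlinarith
    subst this
    have : e = e' := by omega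
    rw [this]
  · exact main x y hx hy h1 hxy

/-- existence of another element of the strip with a smaller index -/
theorem ex1S (W : Base p a b c J ds l q D dl Cl) (S : Sel p a b l ds D dl Cl)
    (hA : Aux p a b ds D Cl) (hD : 2 * (b : ℝ) < D) {N X R : ℤ} {I : ℝ}
    (hK : KGF p a b ds D (P1 l p) Cl N X R I) (hJ : (J : ℝ) < I) (hIJ : D < I + J) :
    ∃ N' X' R' I', SEl p b ds (fun M => P1 l p M ∧ M ≠ N) Cl N' X' R' I' ∧ N' < N := by
  obtain ⟨Xe, Re, Ie, he, -, -, -, hpI⟩ := oneE' W hA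
  have hI0 := he.I0
  have hl := W.hl
  have hlp := W.hlp
  have hNl : l < N := by
    rcases lt_or_gt_of_ne hK.NP.1 with h | h
    · have := dm0 W hA he.cl hK.cl hK.N0.le h
      linarith
    · exact h
  have hNpl : p < N + l := by
    rcases lt_or_gt_of_ne hK.NP.2 with h | h
    · have := dn0 W hA he.cl hK.cl hK.N0.le h
      linarith
    · exact h
  have hp0 : 0 < p := by have := W.ha; have := W.h2a; omega
  have hNp := hK.Np
  have hb := W.hb
  have hDp := W.hD
  have hbR : (2 : ℝ) ≤ b := by exact_mod_cast hb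
  have hp9 : (8 : ℝ) < p := by linarith
  have hp9' : 8 < p := by exact_mod_cast hp9
  obtain ⟨P, hP⟩ := Int.eq_ofNat_of_zero_le hp0.le
  obtain ⟨L, hL⟩ := Int.eq_ofNat_of_zero_le (show 0 ≤ l by omega)
  obtain ⟨M, hM⟩ := Int.eq_ofNat_of_zero_le hK.N0.le
  obtain ⟨d, t, h1, h2, h3, h4, h5⟩ := pig (p := P) (l := L) (M := M) (by omega) (by omega)
    (by omega) ((Xe : ℝ) + ds * Ie)
  have h6 := trX W (mul W he.cl d) (-t)
  have hpR : (p : ℝ) = P := by rw [hP]; simp
  have hx : ((d * Xe + -t * p : ℤ) : ℝ) + ds * (d * Ie) = d * (Xe + ds * Ie) - t * P := by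
    push_cast
    rw [hpR]
    ring
  have g1 : -(b : ℝ) < ((d * Xe + -t * p : ℤ) : ℝ) + ds * (d * Ie) := by rw [hx]; linarith
  have g2 : ((d * Xe + -t * p : ℤ) : ℝ) + ds * (d * Ie) < b := by rw [hx]; linarith
  refine ⟨d * 1, d * Xe + -t * p, d * Re, d * Ie, ⟨h6, by omega, by omega, ⟨⟨?_, ?_⟩, by omega⟩,
    g1, g2⟩, by omega⟩
  · intro hdl
    rw [hdl] at h6
    rw [mul_one] at hdl
    obtain ⟨k, e, k1, k2⟩ := xl W hA h6
    have k3 := h5 (by omega)
    rw [hx] at k1
    have k4 := abs_lt.1 (show |e| < 1 / 4 by linarith)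
    have h2b : 2 * (b : ℝ) < p := by exact_mod_cast W.h2b
    rcases lt_or_ge k 1 with hk | hk
    · have : (k : ℝ) ≤ 0 := by exact_mod_cast (show k ≤ 0 by omega)
      nlinarith
    · have : (1 : ℝ) ≤ k := by exact_mod_cast hk
      nlinarith
  · intro h7
    exact xnpl' W S hD h7 h6 ⟨g1, g2⟩

/-- the form used by the trees -/
theorem ex1 (W : Base p a b c J ds l q D dl Cl) (hA : Aux p a b ds D Cl)
    (S : Sel p a b l ds D dl Cl) (hD : 2 * (b : ℝ) < D) {N X R : ℤ} {I : ℝ}
    (hK : KGF p a b ds D (P1 l p) Cl N X R I) (hJ : (J : ℝ) < I) (hIJ : D < I + J) :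
    ∃ N' X' R' I', SEl p b ds (fun M => P1 l p M ∧ M ≠ N) Cl N' X' R' I' := by
  obtain ⟨N', X', R', I', h, -⟩ := ex1S W S hA hD hK hJ hIJ
  exact ⟨N', X', R', I', h⟩

end

end Helper1.ST
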